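import Pool.Agent.Helper43.Gm.Goals
import Pool.Agent.Helper43.Gm.Goals2
import Pool.Agent.Helper18.CuspSwap

/-!
Packet H4 of MP_d3128a_ag (window `C * m_10 ^ 2`): columns from right to left.
-/

set_option autoImplicit false

namespace Pool.Agent.Helper43.Gm.PkH4

open Finset Pool.Agent.Lead.Sh Pool.Agent.Helper43.Gm
open Helper18.Tw (Hgt)
open Pool.Agent.Lead.Rw (Ind')

lemma hgt_anti {f : ℕ → ℕ} {w κ : ℕ} (h : Hgt f w κ) : Antitone f := by
  apply antitone_nat_of_succ_le
  intro b
  rcases Nat.lt_or_ge b w with hb | hb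
  · rw [h.wall b hb]
    exact h.le _
  · rcases Nat.eq_zero_or_pos (f (b + 1)) with h0 | h0
    · omega
    · exact (h.strict b hb h0).le

lemma image_swap_swap (D : Finset (ℕ × ℕ)) : (D.image Prod.swap).image Prod.swap = D := by
  rw [Finset.image_image]
  simp

lemma ind'_swap {D : Finset (ℕ × ℕ)} {m : ℕ → ℕ} {S : Finset ℕ}
    (h : Ind' (D.image Prod.swap) (rows m S)) : Ind' D (rows m S) := by
  obtain ⟨D1, h1, h2, h3⟩ := h
  refine ⟨D1.image Prod.swap, ?_, ?_, ?_⟩
  · rw [← image_swap_swap D]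
    exact Finset.image_subset_image h1
  · rw [Finset.card_image_of_injective _ Prod.swap_injective, h2]
  · apply Helper18.Cusp.inj_swap
    rw [image_swap_swap]
    exact h3

lemma card_reg {R : ℕ} {h : ℕ → ℕ} {D : Finset (ℕ × ℕ)}
    (hD : ∀ d, d ∈ D ↔ d.2 < R ∧ d.1 < h d.2) : D.card = ∑ y ∈ range R, h y := by
  classical
  rw [Finset.card_eq_sum_card_fiberwise (f := fun d : ℕ × ℕ => d.2) (t := range R)
    (fun d hd => by
      have := (hD d).1 hd
      exact Finset.mem_coe.2 (mem_range.2 this.1))]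
  refine Finset.sum_congr rfl (fun y hy => ?_)
  have h1 : (D.filter (fun d => d.2 = y)) = (range (h y)).image (fun x => (x, y)) := by
    ext d
    rw [mem_filter, hD, mem_image]
    constructor
    · rintro ⟨⟨_, h2⟩, h3⟩
      subst h3
      exact ⟨d.1, mem_range.2 h2, rfl⟩
    · rintro ⟨x, hx, rfl⟩
      exact ⟨⟨mem_range.1 hy, mem_range.1 hx⟩, rfl⟩
  rw [h1, Finset.card_image_of_injective _ (fun a b hab => (Prod.mk.inj hab).1), card_range]

theorem goalH4 (h1 : GoalF1) (h2 : GoalF2) : GoalH4 := by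
  classical
  intro f w κ M D' hf hD hM hMw hMκ hf0
  have hanti := hgt_anti hf
  have hex : ∀ x, ∃ n, ∀ y, y < n ↔ x < f y := by
    intro x
    have he : ∃ y, f y ≤ x := ⟨2 * M + 1, by omega⟩
    refine ⟨Nat.find he, fun y => ?_⟩
    rw [Nat.lt_find_iff]
    constructor
    · intro h
      have := h y le_rfl
      omega
    · intro h z hz
      have := hanti hz
      omega
  choose h hh using hex
  have hha : Antitone h := by
    intro x x' hx
    by_contra hc
    push Not at hc
    have a1 := (hh x' (h x)).1 hc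
    have a2 := (hh x (h x)).2 (by omega)
    omega
  have hle : ∀ x, h x ≤ 2 * M + 1 := by
    intro x
    by_contra hc
    push Not at hc
    have := (hh x (2 * M + 1)).1 hc
    omega
  have hge : ∀ x < κ, M ≤ h x := by
    intro x hx
    by_contra hc
    push Not at hc
    have a1 := hf.wall (h x) (by omega)
    have := (hh x (h x)).2 (by omega)
    omega
  have hS : ∀ d, d ∈ D'.image Prod.swap ↔ d.2 < κ ∧ d.1 < h d.2 := by
    intro d
    have a0 : d ∈ D'.image Prod.swap ↔ d.2 < f d.1 := by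
      rw [mem_image]
      constructor
      · rintro ⟨e, he, rfl⟩
        exact (hD e).1 he
      · intro h
        exact ⟨d.swap, (hD _).2 h, Prod.swap_swap d⟩
    rw [a0, hh]
    constructor
    · intro h
      exact ⟨lt_of_lt_of_le h (hf.le _), h⟩
    · exact fun h => h.2
  have hcard : (D'.image Prod.swap).card = D'.card :=
    Finset.card_image_of_injective _ Prod.swap_injective
  have hsum : D'.card = ∑ y ∈ range κ, h (κ - 1 - y) := by
    rw [← hcard, card_reg hS, Finset.sum_range_reflect]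
  have hreg : Reg 0 κ (fun _ => 0) h (D'.image Prod.swap) := by
    refine ⟨fun d => ?_, fun y _ k _ _ => ?_⟩
    · rw [hS]
      simp
    · simp
  constructor
  · intro m a b hab hm hW
    apply Helper18.Cusp.inj_swap
    refine h1 0 M κ (fun _ => 0) h (fun y => h (κ - 1 - y)) _ ∅ hreg (Or.inr fun y _ => rfl) hM
      (by omega) (Finset.notMem_empty _) ?_ ?_ m a b (5 * M ^ 2) hab hm ?_ ?_
    · intro y hy
      have := hha (show κ - 1 - (y + 1) ≤ κ - 1 - y by omega)
      show h (κ - 1 - y) ≤ h (κ - 1 - (y + 1)) + 1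
      omega
    · intro y hy _
      left
      exact ⟨hha (show κ - 1 - (y + 1) ≤ κ - 1 - y by omega), hge _ (by omega)⟩
    · right
      have := hle (κ - 1 - (κ - 1))
      have hcl : cl κ (∅ : Finset ℕ) = 0 := by
        unfold cl
        simp
      rw [hcl]
      show 2 * M * (∅ : Finset ℕ).card + M * (M - 1) * 0 +
        2 * M * (h (κ - 1 - (κ - 1)) + 2 * M) ≤ 2 * (5 * M ^ 2)
      rw [Finset.card_empty]
      nlinarith
    · rw [hcard]
      exact hW
  · intro m a b hab hm hZ
    apply ind'_swap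
    refine h2 0 M κ 0 (κ - M) (fun _ => 0) h (fun y => h (κ - 1 - y)) _ hreg
      (Or.inr fun y _ => rfl) hM (by omega) (by omega) ?_ ?_ (Or.inr (by omega)) m a b hab hm ?_
    · intro y hy
      have := hha (show κ - 1 - (y + 1) ≤ κ - 1 - y by omega)
      show h (κ - 1 - y) ≤ h (κ - 1 - (y + 1)) + 1
      omega
    · intro y _ hy
      left
      exact ⟨hha (show κ - 1 - (y + 1) ≤ κ - 1 - y by omega), hge _ (by omega)⟩
    · have e1 : ∑ y ∈ range κ, h (κ - 1 - y) = ∑ y ∈ Ico 0 (κ - M), h (κ - 1 - y) +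
          ∑ y ∈ Ico (κ - M) κ, h (κ - 1 - y) := by
        rw [Finset.sum_Ico_consecutive _ (by omega) (by omega), Finset.range_eq_Ico]
      have e2 : ∑ y ∈ Ico (κ - M) κ, h (κ - 1 - y) ≤ M * (2 * M + 1) := by
        calc ∑ y ∈ Ico (κ - M) κ, h (κ - 1 - y) ≤ ∑ y ∈ Ico (κ - M) κ, (2 * M + 1) :=
              Finset.sum_le_sum (fun y _ => hle _)
          _ = M * (2 * M + 1) := by
              rw [Finset.sum_const, Nat.card_Ico, smul_eq_mul]
              congr 1
              omega
      have e3 : M * (2 * M + 1) ≤ 3 * M ^ 2 := by nlinarith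
      show _ ≤ ∑ y ∈ Ico 0 (κ - M), h (κ - 1 - y)
      omega

end Pool.Agent.Helper43.Gm.PkH4
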